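import Pool.Agent.Work.MP_1bed24_nt.Main

/-!
Let `f = p / q` be a rational function of degree at least two over the rationals and let the
rational point `β` be wandering. Suppose that for some `k ≥ 0` each point of the fibre of `β`
under the `k`-th iterate of `f` (taken in the complex projective line) has a critical point of
`f` in its forward orbit. Then for each rational `α` in the grand orbit of `β` the Zsigmondy set
of the sequence of numerators of `fⁿ(α) - β` is finite.
-/

set_option autoImplicit false

namespace Pool.Agent.Results.MP_1bed24_nt.CriticalTarget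

open Polynomial Pool.Agent.Work.MP_1bed24_nt

private theorem injective_of_infinite {X : Type} (f : X → X) (x : X)
    (h : (Set.range fun m : ℕ => f^[m] x).Infinite) :
    Function.Injective fun m : ℕ => f^[m] x := by
  have key : ∀ a b : ℕ, a < b → f^[a] x ≠ f^[b] x := by
    intro a b hab he
    apply h
    have hsub : (Set.range fun m : ℕ => f^[m] x) ⊆ (fun m : ℕ => f^[m] x) '' Set.Iio b := by
      rintro _ ⟨m, rfl⟩
      induction m using Nat.strong_induction_on with
      | _ m ih =>
        by_cases hm : m < b
        · exact ⟨m, hm, rfl⟩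
        · have e1 : f^[m] x = f^[m - (b - a)] x := by
            have e2 : m = (m - b) + b := by omega
            have e3 : m - (b - a) = (m - b) + a := by omega
            rw [e3]
            conv_lhs => rw [e2]
            rw [Function.iterate_add_apply, Function.iterate_add_apply, he]
          obtain ⟨j, hj, hj2⟩ := ih (m - (b - a)) (by omega)
          exact ⟨j, hj, by rw [hj2]; exact e1.symm⟩
    exact (Set.finite_Iio b).image _ |>.subset hsub
  intro a b hab
  rcases lt_trichotomy a b with h1 | h1 | h1
  · exact absurd hab (key a b h1)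
  · exact h1
  · exact absurd hab.symm (key b a h1)

theorem result : ∀ p q : ℤ[X],
    IsCoprime (p.map (Int.castRingHom ℚ)) (q.map (Int.castRingHom ℚ)) →
    2 ≤ ratDeg p q →
    ∀ α β : ℚ,
      (Set.range fun m : ℕ => (ratMap ℚ p q)^[m] (some β)).Infinite →
      (∃ r s : ℕ, (ratMap ℚ p q)^[r] (some α) = (ratMap ℚ p q)^[s] (some β)) →
      (∃ k : ℕ, ∀ γ : Option ℂ, (ratMap ℂ p q)^[k] γ = some (β : ℂ) →
        ∃ i : ℕ, IsCritical ℂ p q ((ratMap ℂ p q)^[i] γ)) →
      (zsigSet p q α β).Finite := by
  intro p q hcop hdeg α β hβ ⟨r, s, hαβ⟩ ⟨k, hk⟩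
  exact main p q hcop hdeg α β (injective_of_infinite _ _ hβ) r s hαβ k hk

end Pool.Agent.Results.MP_1bed24_nt.CriticalTarget
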